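import Mathlib
import Pool.Agent.Helper81.MH.Asm
import Pool.Agent.Helper50.MH.TAD
import Pool.Agent.Helper20.MH.TCL
import Pool.Agent.Helper83.MH.IDLE
import Pool.Agent.Helper16.MH.BAD
import Pool.Agent.Helper32.MH.GEN
import Pool.Agent.Helper5.MH.NID
import Pool.Agent.Helper93.MH.CATCH
import Pool.Agent.Helper49.MH.DM
import Pool.Agent.Helper40.MH.PM
import Pool.Agent.Helper56.MH.CM
import Pool.Agent.Helper56.SB.SCALE
import Pool.Agent.Helper64.SB.OSC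
import Pool.Agent.Helper73.SB.DAG
import Pool.Agent.Helper75.SplitSuff

/-! If the splitting number is `ℵ₁`, and moreover the bounding number is `ℵ₁`, or one of several guessing
principles holds (the weakest one is `WeakGuessing`), then some MAD family is a union of at most
`ℵ₁` closed subsets of the space of infinite sets: `𝔞_closed = ℵ₁`. -/

open Set Cardinal MeasureTheory Filter

namespace Pool.Agent.Results.MP_340b06_lc.SplittingAndGuessing

/-- `C` is a closed subset of the space of infinite subsets of `ℕ` (with the topology of the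
Cantor space): it consists of the infinite sets whose characteristic function lies in some
closed `F ⊆ 2^ℕ`. -/
def IsClosedFamily (C : Set (Set ℕ)) : Prop :=
  ∃ F : Set (ℕ → Bool), IsClosed F ∧ C = {a : Set ℕ | a.Infinite ∧ ∃ x ∈ F, a = {n | x n = true}}

/-- `A` is a maximal almost disjoint (MAD) family. -/
def IsMAD (A : Set (Set ℕ)) : Prop :=
  A.Infinite ∧ (∀ a ∈ A, a.Infinite) ∧ (∀ a ∈ A, ∀ b ∈ A, a ≠ b → (a ∩ b).Finite) ∧
    ∀ b : Set ℕ, b.Infinite → ∃ a ∈ A, (a ∩ b).Infinite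

/-- `S` is a splitting family. -/
def Splitting (S : Set (Set ℕ)) : Prop :=
  ∀ a : Set ℕ, a.Infinite → ∃ x ∈ S, (a ∩ x).Infinite ∧ (a \ x).Infinite

/-- `D` is an unbounded family: no single function eventually dominates all members. -/
def Unbounded (D : Set (ℕ → ℕ)) : Prop :=
  ∀ f : ℕ → ℕ, ∃ g ∈ D, ∃ᶠ n in atTop, f n < g n

/-- Each `e ∈ ℱ` codes the partition of `ℕ` into the pieces `e ⁻¹ {n}`; every infinite set `b`
has an `e ∈ ℱ` all of whose pieces meet `b` in an infinite set. -/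
def SplitsByPieces (ℱ : Set (ℕ → ℕ)) : Prop :=
  ∀ b : Set ℕ, b.Infinite → ∃ e ∈ ℱ, ∀ n : ℕ, {m | m ∈ b ∧ e m = n}.Infinite

/-- The first uncountable ordinal, as a well-ordered type. -/
abbrev Omega1 : Type := (Cardinal.ord ℵ₁).ToType

/-- `E` is a closed unbounded subset of `ω₁`. -/
def IsClub (E : Set Omega1) : Prop :=
  (∀ α, ∃ ε ∈ E, α < ε) ∧
    ∀ γ : Omega1, (∃ β, β < γ) → (∀ β < γ, ∃ ε ∈ E, β < ε ∧ ε < γ) → γ ∈ E

/-- The stick principle for clubs: there are `ℵ₁` infinite subsets of `ω₁` such that every club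
contains one of them (a consequence of club guessing on `ω₁`, and of stick). -/
def ClubStick : Prop :=
  ∃ 𝒯 : Set (Set Omega1), #𝒯 ≤ ℵ₁ ∧ (∀ T ∈ 𝒯, T.Infinite) ∧ ∀ E, IsClub E → ∃ T ∈ 𝒯, T ⊆ E

/-- The weak guessing principle: there are `ℵ₁` pairs `(c, f)` of a monotone sequence `c` of
countable ordinals and a colouring `f` of its indices, such that for every `F : ω₁ → ω₁` there is
one with `F (c i) ≤ c (i + 1)` for infinitely many `i` of every colour `n`. -/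
def WeakGuessing : Prop :=
  ∃ 𝒮 : Set ((ℕ → Omega1) × (ℕ → ℕ)), #𝒮 ≤ ℵ₁ ∧ (∀ p ∈ 𝒮, Monotone p.1) ∧
    ∀ F : Omega1 → Omega1, ∃ p ∈ 𝒮, ∀ n, {i | p.2 i = n ∧ F (p.1 i) ≤ p.1 (i + 1)}.Infinite

theorem result
    (hs : ∃ S : Set (Set ℕ), #S ≤ ℵ₁ ∧ Splitting S)
    (h : (∃ D : Set (ℕ → ℕ), #D ≤ ℵ₁ ∧ Unbounded D) ∨
      (∃ ℱ : Set (ℕ → ℕ), #ℱ ≤ ℵ₁ ∧ SplitsByPieces ℱ) ∨
      (∃ X : Set ℝ, #X ≤ ℵ₁ ∧ volume X ≠ 0) ∨
      ClubStick ∨ WeakGuessing) :
    ∃ 𝒞 : Set (Set (Set ℕ)), #𝒞 ≤ ℵ₁ ∧ (∀ C ∈ 𝒞, IsClosedFamily C) ∧ IsMAD (⋃₀ 𝒞) := by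
  have hmho : Helper81.MH.Mho := by
    rcases h with ⟨D, hD, hunb⟩ | h | ⟨X, hX, hN⟩ | h | h
    · obtain ⟨g, hg⟩ := Helper56.SB.goal_SCALE D hD hunb
      obtain ⟨c, hc⟩ := Helper64.SB.goal_OSC g hg
      exact Helper49.MH.goal_DM (Helper73.SB.goal_DAG c hc D hD hunb)
    · exact Helper40.MH.goal_PM h
    · obtain ⟨ℱ, h1, h2⟩ := Helper75.SplitCore.nonnull_splits X hN
      exact Helper40.MH.goal_PM ⟨ℱ, h1.trans hX, h2⟩
    · exact Helper56.MH.goal_CM h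
    · exact h
  obtain ⟨S, hS, hspl⟩ := hs
  obtain ⟨𝒞, h1, h2, h3, h4, h5⟩ := Helper81.MH.main_mho Helper50.MH.TAD.goal_TAD
    Helper20.MH.goal_TCL Helper83.MH.goal_IDLE Helper16.MH.goal_BAD Helper32.MH.GEN.goal_GEN
    Helper5.MH.goal_NID Helper93.MH.goal_CATCH S hS hspl hmho
  refine ⟨𝒞, h1, h2, h3, ?_, h4, h5⟩
  rintro a ⟨C, hC, ha⟩
  obtain ⟨F, -, rfl⟩ := h2 C hC
  exact ha.1

end Pool.Agent.Results.MP_340b06_lc.SplittingAndGuessing
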